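import Pool.Agent.helper60.DK.Spec

set_option autoImplicit false

namespace Pool.Agent.helper60.DK

open Polynomial Finset

theorem P4 (hWF : WF_stmt) (hY : P4Y_stmt) : P4_stmt := by
  intro p _ hp hleg
  have hp5 : 5 ≤ p := by omega
  obtain ⟨a, ha⟩ : ∃ a : AlgebraicClosure (ZMod p), a ^ 2 = 5 :=
    IsAlgClosed.exists_pow_nat_eq 5 (by norm_num)
  obtain ⟨b, hb⟩ : ∃ b : AlgebraicClosure (ZMod p), b ^ 2 = -3 :=
    IsAlgClosed.exists_pow_nat_eq (-3) (by norm_num)
  have hD := hY p (AlgebraicClosure (ZMod p)) hp hleg a b ha hb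
  have h2 : (2 : AlgebraicClosure (ZMod p)) ≠ 0 := by
    intro h
    have h' : ((2 : ℕ) : AlgebraicClosure (ZMod p)) = 0 := by exact_mod_cast h
    rw [CharP.cast_eq_zero_iff (AlgebraicClosure (ZMod p)) p] at h'
    have := Nat.le_of_dvd (by norm_num) h'
    omega
  have h3 : (3 : AlgebraicClosure (ZMod p)) ≠ 0 := by
    intro h
    have h' : ((3 : ℕ) : AlgebraicClosure (ZMod p)) = 0 := by exact_mod_cast h
    rw [CharP.cast_eq_zero_iff (AlgebraicClosure (ZMod p)) p] at h'
    have := Nat.le_of_dvd (by norm_num) h'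
    omega
  have hyy : (a - 1) / 2 * (1 + (a - 1) / 2) = 1 := by
    have h4 : (2 : AlgebraicClosure (ZMod p)) * 2 ≠ 0 := mul_ne_zero h2 h2
    have e : (a - 1) / 2 * (1 + (a - 1) / 2) = (a ^ 2 - 1) / (2 * 2) := by
      field_simp
      ring
    rw [e, ha]
    rw [div_eq_one_iff_eq h4]
    norm_num
  have hne : (1 : AlgebraicClosure (ZMod p)) + (-4) ≠ 0 := by
    intro h
    apply h3
    linear_combination -h
  have key := hWF p (AlgebraicClosure (ZMod p)) hp5 (-4) ((a - 1) / 2) hne (by rw [hyy]; norm_num)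
  rw [hD] at key
  have hz := key.trans (show (1 + -4 : AlgebraicClosure (ZMod p)) ^ (3 * hh p) * 0 ^ 2 = 0 by ring)
  have hinj := FaithfulSMul.algebraMap_injective (ZMod p) (AlgebraicClosure (ZMod p))
  apply hinj
  rw [map_zero, ← aeval_algebraMap_apply, map_neg, map_ofNat]
  exact hz

end Pool.Agent.helper60.DK
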