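import Pool.Agent.helper60.DK.Spec

set_option autoImplicit false

namespace Pool.Agent.helper60.DK

open Polynomial Finset

theorem TR2_add {p : ℕ} (hp : p.Prime) {a b : ℚ} (ha : ¬ p ∣ a.den) (hb : ¬ p ∣ b.den) :
    ¬ p ∣ (a + b).den := by
  intro h
  have h1 : p ∣ a.den * b.den := h.trans (Rat.add_den_dvd a b)
  rcases (hp.dvd_mul).1 h1 with h2 | h2
  · exact ha h2
  · exact hb h2

theorem TR2_mul {p : ℕ} (hp : p.Prime) {a b : ℚ} (ha : ¬ p ∣ a.den) (hb : ¬ p ∣ b.den) :
    ¬ p ∣ (a * b).den := by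
  intro h
  have h1 : p ∣ a.den * b.den := h.trans (Rat.mul_den_dvd a b)
  rcases (hp.dvd_mul).1 h1 with h2 | h2
  · exact ha h2
  · exact hb h2

theorem TR2_int {p : ℕ} (hp : p.Prime) (a : ℤ) : ¬ p ∣ (a : ℚ).den := by
  intro h
  rw [Rat.den_intCast] at h
  exact hp.one_lt.ne' (Nat.dvd_one.1 h)

theorem TR2_poly {p : ℕ} (hp : p.Prime) (x : ℚ) (hx : ¬ p ∣ x.den) (g : ℤ[X]) :
    ¬ p ∣ (aeval x g).den := by
  induction g using Polynomial.induction_on with
  | C a =>
    rw [aeval_C]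
    exact TR2_int hp a
  | add f g hf hg =>
    rw [map_add]
    exact TR2_add hp hf hg
  | monomial n a ih =>
    rw [pow_succ, ← mul_assoc, map_mul, aeval_X]
    exact TR2_mul hp ih hx

theorem TR2 : TR2_stmt := by
  intro p hpf f x t hx ht hf
  have hp : p.Prime := hpf.out
  obtain ⟨u, hu⟩ := ht
  obtain ⟨w, hw⟩ := hf
  obtain ⟨g, hg⟩ : (X - C t) ∣ (f - C (f.eval t)) := by
    rw [dvd_iff_isRoot]
    simp
  have hden : (x.den : ℚ) ≠ 0 := by exact_mod_cast x.den_ne_zero
  have hxt : x - t = (p : ℚ) ^ 2 * (-(u : ℚ) * (1 / (x.den : ℚ))) := by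
    have h1 : (t : ℚ) * x.den - x.num = (p : ℚ) ^ 2 * u := by exact_mod_cast hu
    have h2 : x * x.den = x.num := Rat.mul_den_eq_num x
    field_simp
    linear_combination h2 - h1
  have hinv : ¬ p ∣ (1 / (x.den : ℚ)).den := by
    rw [one_div, Rat.inv_natCast_den]
    rw [if_neg x.den_ne_zero]
    exact hx
  refine ⟨(-(u : ℚ) * (1 / (x.den : ℚ))) * aeval x g + w, ?_, ?_⟩
  · apply TR2_add hp
    · apply TR2_mul hp
      · apply TR2_mul hp
        · have := TR2_int hp (-u)
          rw [Int.cast_neg] at this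
          exact this
        · exact hinv
      · exact TR2_poly hp x hx g
    · exact TR2_int hp w
  · have h3 : aeval x f = (x - t) * aeval x g + (f.eval t : ℤ) := by
      have h4 := congrArg (aeval x) hg
      rw [map_sub, map_mul, map_sub, aeval_X, aeval_C, aeval_C] at h4
      simp only [eq_intCast] at h4
      linear_combination h4
    rw [h3, hxt, hw]
    push_cast
    ring

end Pool.Agent.helper60.DK
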